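import Pool.Agent.H36Z.IndCM.Defs

set_option autoImplicit false

namespace Pool.Agent.H36Z.IndCM

open Polynomial

universe u

variable (k : Type u) [Field k]

/-- The cuspidal algebra `k[t^2, t^3]`. -/
def cusp : Subalgebra k k[X] where
  carrier := {p | p.coeff 1 = 0}
  mul_mem' := by
    intro a b ha hb
    simp only [Set.mem_ofPred_eq] at ha hb ⊢
    rw [Polynomial.mul_coeff_one, ha, hb]; simp
  add_mem' := by
    intro a b ha hb
    simp only [Set.mem_ofPred_eq] at ha hb ⊢
    rw [coeff_add, ha, hb, add_zero]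
  algebraMap_mem' := by
    intro c
    simp only [Set.mem_ofPred_eq, Polynomial.algebraMap_apply]
    simp

variable {k}

theorem mem_cusp {p : k[X]} : p ∈ cusp k ↔ p.coeff 1 = 0 := Iff.rfl

theorem cusp_finite : Module.Finite (cusp k) k[X] := by
  classical
  refine ⟨⟨{1, X}, ?_⟩⟩
  rw [eq_top_iff]
  intro p _
  have h1 : p - C (p.coeff 1) * X ∈ cusp k := by
    rw [mem_cusp]; simp
  have h2 : C (p.coeff 1) ∈ cusp k := by
    rw [mem_cusp]; simp
  have : p = (⟨_, h1⟩ : cusp k) • (1 : k[X]) + (⟨_, h2⟩ : cusp k) • (X : k[X]) := by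
    simp [Subalgebra.smul_def]
  rw [this]
  refine add_mem (Submodule.smul_mem _ _ (Submodule.subset_span ?_))
    (Submodule.smul_mem _ _ (Submodule.subset_span ?_)) <;> simp

theorem cusp_finiteType : Algebra.FiniteType k (cusp k) := by
  have h := cusp_finite (k := k)
  exact ⟨fg_of_fg_of_fg k (cusp k) k[X] (Algebra.FiniteType.out) h.1 Subtype.val_injective⟩

theorem cusp_noeth : IsNoetherianRing (cusp k) := by
  have := cusp_finiteType (k := k)
  exact Algebra.FiniteType.isNoetherianRing k (cusp k)

theorem cusp_dimLE : Ring.DimensionLEOne (cusp k) := by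
  have h := cusp_finite (k := k)
  have hint : Algebra.IsIntegral (cusp k) k[X] := Algebra.IsIntegral.of_finite _ _
  refine ⟨fun {P} hP0 hP => ?_⟩
  obtain ⟨Q, -, hQ, hQP⟩ := Ideal.exists_ideal_over_prime_of_isIntegral (S := k[X]) P ⊥
    (by
      intro x hx
      rw [Ideal.mem_comap, Ideal.mem_bot] at hx
      have : x = 0 := Subtype.ext hx
      rw [this]; exact P.zero_mem)
  have hQ0 : Q ≠ ⊥ := by
    rintro rfl
    apply hP0
    rw [← hQP, eq_bot_iff]
    intro x hx
    rw [Ideal.mem_comap, Ideal.mem_bot] at hx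
    have : x = 0 := Subtype.ext hx
    rw [this]; exact Ideal.zero_mem _
  have hQm : Q.IsMaximal := hQ.isMaximal hQ0
  rw [← hQP]
  exact Ideal.isMaximal_comap_of_isIntegral_of_isMaximal Q

theorem isCM_of_dimLE (R : Type u) [CommRing R] [IsDomain R] [IsNoetherianRing R]
    [Ring.DimensionLEOne R] : IsCohenMacaulay R := by
  refine ⟨inferInstance, fun P hP => ?_⟩
  have hdim := IsLocalization.AtPrime.ringKrullDim_eq_height P (Localization.AtPrime P)
  by_cases h0 : P = ⊥
  · refine ⟨[], by simp, RingTheory.Sequence.IsRegular.nil _ _, ?_⟩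
    have hz : P.height = 0 := Ideal.height_eq_zero_iff_eq_bot.mpr h0
    rw [hdim, hz]; rfl
  · obtain ⟨x, hxP, hx0⟩ := Submodule.exists_mem_ne_zero_of_ne_bot h0
    have hle : P.height ≤ 1 := by
      have h1 : (P.height : WithBot ℕ∞) ≤ ringKrullDim R := Ideal.height_le_ringKrullDim_of_isPrime
      have h2 : ringKrullDim R ≤ (1 : ℕ) := Ring.krullDimLE_iff.mp inferInstance
      have h3 := h1.trans h2
      exact_mod_cast h3
    have hne : P.height ≠ 0 := fun h => h0 (Ideal.height_eq_zero_iff_eq_bot.mp h)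
    have hone : P.height = 1 := le_antisymm hle (Order.one_le_iff_ne_zero.mpr hne)
    have hmem : algebraMap R (Localization.AtPrime P) x ∈
        IsLocalRing.maximalIdeal (Localization.AtPrime P) :=
      (IsLocalization.AtPrime.to_map_mem_maximal_iff _ P x).mpr hxP
    have hinj : Function.Injective (algebraMap R (Localization.AtPrime P)) :=
      IsLocalization.injective _ P.primeCompl_le_nonZeroDivisors
    have hne0 : algebraMap R (Localization.AtPrime P) x ≠ 0 := by
      intro h; exact hx0 (hinj (by rw [h, map_zero]))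
    refine ⟨[algebraMap R _ x], by simpa using hmem, ?_, ?_⟩
    · rw [IsLocalRing.isRegular_iff_isWeaklyRegular_of_subset_maximalIdeal (by simpa using hmem),
        RingTheory.Sequence.isWeaklyRegular_singleton_iff]
      intro a b hab
      exact mul_left_cancel₀ hne0 hab
    · rw [hdim, hone]; rfl

theorem cusp_isCM : IsCohenMacaulay (cusp k) := by
  have := cusp_noeth (k := k)
  have := cusp_dimLE (k := k)
  exact isCM_of_dimLE _

/-- The substitution `t ↦ c t`. -/
noncomputable def scale (c : k) : cusp k →ₐ[k] cusp k :=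
  ((Polynomial.aeval (C c * X : k[X])).comp (cusp k).val).codRestrict (cusp k) (by
    intro p
    rw [mem_cusp]
    have : (Polynomial.aeval (C c * X : k[X])) (p : k[X]) = (p : k[X]).comp (C c * X) := by
      rw [comp_eq_aeval]
    simp only [AlgHom.comp_apply, Subalgebra.coe_val]
    rw [this, comp_C_mul_X_coeff, mem_cusp.mp p.2, zero_mul])

theorem scale_coeff (c : k) (p : cusp k) (n : ℕ) :
    ((scale c p : cusp k) : k[X]).coeff n = (p : k[X]).coeff n * c ^ n := by
  have : ((scale c p : cusp k) : k[X]) = (p : k[X]).comp (C c * X) := by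
    rw [comp_eq_aeval]; rfl
  rw [this, comp_C_mul_X_coeff]

theorem scale_scale (c d : k) (p : cusp k) : scale c (scale d p) = scale (c * d) p := by
  apply Subtype.ext
  ext n
  simp only [scale_coeff, mul_pow]
  ring

theorem scale_one (p : cusp k) : scale 1 p = p := by
  apply Subtype.ext
  ext n
  simp [scale_coeff]

theorem borel_det (b : Borel k) : (b : SL2 k) 0 0 * (b : SL2 k) 1 1 = 1 := by
  have h := (b : SL2 k).det_coe
  rw [Matrix.det_fin_two] at h
  have h0 : (b : SL2 k) 1 0 = 0 := b.2
  rw [h0, mul_zero, sub_zero] at h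
  exact h

/-- The action of `B` on the cuspidal algebra: `b` acts by `t ↦ b₂₂ t`. -/
noncomputable def rho : Borel k →* (cusp k ≃ₐ[k] cusp k) where
  toFun b := AlgEquiv.ofAlgHom (scale ((b : SL2 k) 1 1)) (scale ((b : SL2 k) 0 0))
    (by ext1 p; simp only [AlgHom.comp_apply, scale_scale, AlgHom.id_apply]
        rw [mul_comm, borel_det, scale_one])
    (by ext1 p; simp only [AlgHom.comp_apply, scale_scale, AlgHom.id_apply]
        rw [borel_det, scale_one])
  map_one' := by
    ext1 p
    simp [scale_one]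
  map_mul' a b := by
    ext1 p
    have ha : (a : SL2 k) 1 0 = 0 := a.2
    simp [scale_scale, Matrix.mul_apply, Fin.sum_univ_two, ha]

theorem rho_apply (b : Borel k) (p : cusp k) : rho b p = scale ((b : SL2 k) 1 1) p := rfl

theorem rho_inv_apply (b : Borel k) (p : cusp k) : rho b⁻¹ p = scale ((b : SL2 k) 0 0) p := by
  rw [rho_apply]
  congr 2
  simp [Matrix.SpecialLinearGroup.SL2_inv_expl]

theorem monomial_mem (p : cusp k) (n : ℕ) : monomial n ((p : k[X]).coeff n) ∈ cusp k := by
  rw [mem_cusp, coeff_monomial]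
  split_ifs with h
  · rw [h]; exact p.2
  · rfl

theorem rho_rational : IsRationalAction (rho (k := k)) := by
  intro r
  refine ⟨∑ n ∈ (r : k[X]).support, MvPolynomial.C (⟨_, monomial_mem r n⟩ : cusp k) *
    MvPolynomial.X ((1 : Fin 2), (1 : Fin 2)) ^ n, fun b => ?_⟩
  beta_reduce
  rw [rho_apply]
  apply Subtype.ext
  ext m
  rw [scale_coeff]
  simp only [map_sum, map_mul, MvPolynomial.eval_C, map_pow, MvPolynomial.eval_X,
    AddSubmonoidClass.coe_finsetSum, MulMemClass.coe_mul, SubmonoidClass.coe_pow,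
    finsetSum_coeff]
  have hc : ∀ c : k, ((algebraMap k (cusp k) c : cusp k) : k[X]) = C c := fun c => rfl
  simp only [hc, ← C_pow, coeff_mul_C, coeff_monomial]
  rw [Finset.sum_eq_single m]
  · simp
  · intro n _ hn; simp [hn]
  · intro hm
    rw [notMem_support_iff.mp hm]; simp

end Pool.Agent.H36Z.IndCM
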