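import Mathlib

set_option autoImplicit false

/-!
Definitions: the group `G = SL_2(k)`, its Borel subgroup `B` of upper triangular matrices,
rational actions of `B` on commutative algebras, induction from `B` to `G`, and
Cohen-Macaulay rings.
-/

namespace Pool.Agent.H36Z.IndCM

universe u

/-- The group `G = SL_2(k)`. -/
abbrev SL2 (k : Type u) [Field k] : Type u := Matrix.SpecialLinearGroup (Fin 2) k

/-- The Borel subgroup `B` of upper triangular matrices in `SL_2(k)`. -/
def Borel (k : Type u) [Field k] : Subgroup (SL2 k) where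
  carrier := {g | g 1 0 = 0}
  one_mem' := by simp
  mul_mem' := by
    intro a b ha hb
    simp only [Set.mem_ofPred_eq] at ha hb ⊢
    simp [Matrix.mul_apply, Fin.sum_univ_two, ha, hb]
  inv_mem' := by
    intro a ha
    simp only [Set.mem_ofPred_eq] at ha ⊢
    simp [Matrix.SpecialLinearGroup.SL2_inv_expl, ha]

/-- A map `f : X → R`, where `X` is a set of matrices (given through `ι : X → SL_2(k)`) and `R` is
a commutative `k`-algebra, is a morphism (into `R` viewed as an ind-variety) if it is a polynomial
in the four matrix entries with coefficients in `R`, i.e. a finite sum of products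
`(regular function on X) * (element of R)`. -/
def IsMorphism {k : Type u} [Field k] {X : Type u} (ι : X → SL2 k)
    {R : Type u} [CommRing R] [Algebra k R] (f : X → R) : Prop :=
  ∃ P : MvPolynomial (Fin 2 × Fin 2) R,
    ∀ x, f x = MvPolynomial.eval (fun ij => algebraMap k R (ι x ij.1 ij.2)) P

/-- An action `ρ` of `B` on `R` by `k`-algebra automorphisms is rational if every orbit map
`b ↦ ρ b r` is a morphism `B → R`. -/
def IsRationalAction {k : Type u} [Field k] {R : Type u} [CommRing R] [Algebra k R]
    (ρ : Borel k →* (R ≃ₐ[k] R)) : Prop :=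
  ∀ r : R, IsMorphism (fun b : Borel k => (b : SL2 k)) (fun b => ρ b r)

/-- The induced algebra `ind_B^G R`: the morphisms `f : G → R` with `f (g b) = b⁻¹ f(g)` for all
`g ∈ G`, `b ∈ B`, under pointwise operations. -/
def ind {k : Type u} [Field k] {R : Type u} [CommRing R] [Algebra k R]
    (ρ : Borel k →* (R ≃ₐ[k] R)) : Subalgebra k (SL2 k → R) where
  carrier := {f | IsMorphism (fun g : SL2 k => g) f ∧
    ∀ (g : SL2 k) (b : Borel k), f (g * (b : SL2 k)) = ρ b⁻¹ (f g)}
  mul_mem' := by
    rintro f h ⟨⟨P, hP⟩, hf⟩ ⟨⟨Q, hQ⟩, hh⟩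
    refine ⟨⟨P * Q, fun x => ?_⟩, fun g b => ?_⟩
    · rw [Pi.mul_apply, map_mul, hP, hQ]
    · rw [Pi.mul_apply, Pi.mul_apply, map_mul, hf, hh]
  add_mem' := by
    rintro f h ⟨⟨P, hP⟩, hf⟩ ⟨⟨Q, hQ⟩, hh⟩
    refine ⟨⟨P + Q, fun x => ?_⟩, fun g b => ?_⟩
    · rw [Pi.add_apply, map_add, hP, hQ]
    · rw [Pi.add_apply, Pi.add_apply, map_add, hf, hh]
  algebraMap_mem' := by
    intro c
    refine ⟨⟨MvPolynomial.C (algebraMap k R c), fun x => ?_⟩, fun g b => ?_⟩
    · simp
    · simp

/-- A local ring is Cohen-Macaulay if its maximal ideal contains a regular sequence whose length is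
the Krull dimension of the ring (depth equals dimension). -/
def IsCMLocal (S : Type u) [CommRing S] [IsLocalRing S] : Prop :=
  ∃ rs : List S, (∀ r ∈ rs, r ∈ IsLocalRing.maximalIdeal S) ∧
    RingTheory.Sequence.IsRegular S rs ∧ (rs.length : WithBot ℕ∞) = ringKrullDim S

/-- A commutative ring is Cohen-Macaulay if it is Noetherian and its localisation at every prime
ideal is a Cohen-Macaulay local ring. -/
def IsCohenMacaulay (R : Type u) [CommRing R] : Prop :=
  IsNoetherianRing R ∧ ∀ (P : Ideal R) [P.IsPrime], IsCMLocal (Localization.AtPrime P)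

end Pool.Agent.H36Z.IndCM
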