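import Pool.Agent.H36Z.IndCM.Cusp

set_option autoImplicit false

namespace Pool.Agent.H36Z.IndCM

open Polynomial

universe u

variable {k : Type u} [Field k]

/-- The lower unipotent matrix with entry `s`. -/
def low (s : k) : SL2 k := ⟨!![1, 0; s, 1], by simp [Matrix.det_fin_two]⟩

/-- The matrix with rows `(s, -1)` and `(1, 0)`. -/
def wey (s : k) : SL2 k := ⟨!![s, -1; 1, 0], by simp [Matrix.det_fin_two]⟩

/-- An upper triangular matrix of determinant one. -/
def upp (a c : k) (ha : a ≠ 0) : Borel k :=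
  ⟨⟨!![a, c; 0, a⁻¹], by simp [Matrix.det_fin_two, ha]⟩, by
    show (!![a, c; 0, a⁻¹] : Matrix (Fin 2) (Fin 2) k) 1 0 = 0
    simp⟩

theorem low_zero : low (0 : k) = 1 := by
  ext i j
  fin_cases i <;> fin_cases j <;> simp [low]

theorem wey_eq (s : k) (hs : s ≠ 0) : wey s = low s⁻¹ * (upp s (-1) hs : SL2 k) := by
  ext i j
  fin_cases i <;> fin_cases j <;>
    simp [low, wey, upp, Matrix.mul_apply, Fin.sum_univ_two, hs]

theorem eq_low_mul (g : SL2 k) (hg : g 0 0 ≠ 0) :
    g = low (g 1 0 / g 0 0) * (upp (g 0 0) (g 0 1) hg : SL2 k) := by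
  have h := g.det_coe
  rw [Matrix.det_fin_two] at h
  ext i j
  fin_cases i <;> fin_cases j <;>
    simp [low, upp, Matrix.mul_apply, Fin.sum_univ_two, hg]
  field_simp
  linear_combination h

theorem curve_poly {R : Type u} [CommRing R] [Algebra k R] (f : SL2 k → R)
    (hf : IsMorphism (fun g : SL2 k => g) f) (γ : k → SL2 k) (M : Fin 2 × Fin 2 → k[X])
    (hM : ∀ s ij, γ s ij.1 ij.2 = (M ij).eval s) :
    ∃ F : R[X], ∀ s, f (γ s) = F.eval (algebraMap k R s) := by
  obtain ⟨P, hP⟩ := hf
  refine ⟨MvPolynomial.aeval (fun ij => (M ij).map (algebraMap k R)) P, fun s => ?_⟩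
  rw [hP]
  simp only [hM]
  clear hP
  induction P using MvPolynomial.induction_on with
  | C a => simp
  | add p q hp hq => simp only [map_add, eval_add, hp, hq]
  | mul_X p i hp =>
    simp only [map_mul, eval_mul, hp, MvPolynomial.eval_X, MvPolynomial.aeval_X]
    rw [eval_map_algebraMap, aeval_algebraMap_apply, coe_aeval_eq_eval]

theorem low_poly {R : Type u} [CommRing R] [Algebra k R] (f : SL2 k → R)
    (hf : IsMorphism (fun g : SL2 k => g) f) :
    ∃ F : R[X], ∀ s, f (low s) = F.eval (algebraMap k R s) := by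
  refine curve_poly f hf low (fun ij => (!![1, 0; X, 1] : Matrix (Fin 2) (Fin 2) k[X]) ij.1 ij.2) ?_
  rintro s ⟨i, j⟩
  fin_cases i <;> fin_cases j <;> simp [low]

theorem wey_poly {R : Type u} [CommRing R] [Algebra k R] (f : SL2 k → R)
    (hf : IsMorphism (fun g : SL2 k => g) f) :
    ∃ F : R[X], ∀ s, f (wey s) = F.eval (algebraMap k R s) := by
  refine curve_poly f hf wey (fun ij => (!![X, -1; 1, 0] : Matrix (Fin 2) (Fin 2) k[X]) ij.1 ij.2) ?_
  rintro s ⟨i, j⟩
  fin_cases i <;> fin_cases j <;> simp [wey]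

theorem poly_const [Infinite k] (ψ χ : k[X]) (h : ∀ s : k, s ≠ 0 → χ.eval s = ψ.eval s⁻¹) (s : k) :
    ψ.eval s = ψ.eval 0 := by
  have key : X ^ ψ.natDegree * χ = ψ.reverse := by
    apply Polynomial.eq_of_infinite_eval_eq
    refine Set.Infinite.mono (s := {0}ᶜ) ?_ (Set.finite_singleton (0 : k)).infinite_compl
    intro x hx
    have hx0 : x ≠ 0 := hx
    simp only [Set.mem_ofPred_eq, eval_mul, eval_pow, eval_X]
    rw [h x hx0]
    have : Invertible x⁻¹ := invertibleOfNonzero (inv_ne_zero hx0)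
    have h2 := Polynomial.eval₂_reverse_mul_pow (RingHom.id k) x⁻¹ ψ
    rw [invOf_eq_inv, inv_inv, eval₂_id, eval₂_id] at h2
    rw [← h2, mul_comm, mul_assoc, ← mul_pow, inv_mul_cancel₀ hx0, one_pow, mul_one]
  have hdeg : ψ.natDegree = 0 := by
    by_contra hne
    have h0 : ψ.reverse.coeff 0 = 0 := by
      rw [← key, mul_coeff_zero, coeff_X_pow, if_neg (fun h => hne h.symm), zero_mul]
    rw [coeff_zero_reverse, leadingCoeff_eq_zero] at h0
    apply hne
    rw [h0, natDegree_zero]
  rw [eq_C_of_natDegree_eq_zero hdeg]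
  simp

/-- The induced algebra as a type. -/
def AA (k : Type u) [Field k] : Type u := ind (rho (k := k))

noncomputable instance : CommRing (AA k) := inferInstanceAs (CommRing (ind (rho (k := k))))

/-- The constant coefficient on the cuspidal algebra. -/
noncomputable def c0 : cusp k →ₐ[k] k := (Polynomial.aeval (0 : k)).comp (cusp k).val

theorem c0_apply (p : cusp k) : c0 p = (p : k[X]).coeff 0 := by
  simp [c0, coeff_zero_eq_eval_zero, coe_aeval_eq_eval]

theorem c0_scale (c : k) (p : cusp k) : c0 (scale c p) = c0 p := by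
  simp [c0_apply, scale_coeff]

theorem c0_const [Infinite k] (f : AA k) (g : SL2 k) (hg : g 0 0 ≠ 0) :
    c0 (f.1 g) = c0 (f.1 1) := by
  obtain ⟨hm, he⟩ := f.2
  have hinv : ∀ (g : SL2 k) (b : Borel k), c0 (f.1 (g * (b : SL2 k))) = c0 (f.1 g) := by
    intro g b
    rw [he, rho_inv_apply, c0_scale]
  obtain ⟨F, hF⟩ := low_poly f.1 hm
  obtain ⟨H, hH⟩ := wey_poly f.1 hm
  have hev : ∀ (F : (cusp k)[X]) (s : k),
      c0 (F.eval (algebraMap k _ s)) = (F.map (c0 (k := k) : cusp k →+* k)).eval s := by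
    intro F s
    have := Polynomial.eval₂_at_apply (p := F) (c0 (k := k) : cusp k →+* k) (algebraMap k _ s)
    rw [eval_map]
    simpa using this.symm
  have hc := poly_const (F.map (c0 (k := k) : cusp k →+* k)) (H.map (c0 (k := k) : cusp k →+* k))
    (by
      intro s hs
      rw [← hev, ← hev, ← hF, ← hH, wey_eq s hs, hinv])
  rw [eq_low_mul g hg, hinv, hF, hev, hc, ← hev, ← hF, low_zero]

/-- The linear map `p ↦ t (p - p(0))` on the cuspidal algebra. -/
noncomputable def Lm : cusp k →ₗ[k] cusp k where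
  toFun p := ⟨X * ((p : k[X]) - C ((p : k[X]).coeff 0)), by
    rw [mem_cusp, coeff_X_mul]; simp⟩
  map_add' p q := by
    apply Subtype.ext
    simp only [Subalgebra.coe_add, coeff_add, map_add, AddMemClass.mk_add_mk]
    ring
  map_smul' c p := by
    apply Subtype.ext
    simp only [Subalgebra.coe_smul, coeff_smul, smul_eq_mul, map_mul, RingHom.id_apply,
      SetLike.mk_smul_mk, smul_eq_C_mul]
    simp only [coeff_C_mul, map_mul]
    ring

theorem Lm_coe (p : cusp k) : ((Lm p : cusp k) : k[X]) = X * ((p : k[X]) - C ((p : k[X]).coeff 0)) :=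
  rfl

theorem scale_Lm (c : k) (p : cusp k) : scale c (Lm p) = c • Lm (scale c p) := by
  apply Subtype.ext
  ext n
  rw [scale_coeff, Subalgebra.coe_smul, coeff_smul, Lm_coe, Lm_coe]
  rcases n with _ | n
  · simp
  · rw [coeff_X_mul, coeff_X_mul, coeff_sub, coeff_sub, scale_coeff, scale_coeff, coeff_C, coeff_C]
    split_ifs with h
    · subst h; simp
    · simp; ring

theorem morphism_linear {X' : Type u} (ι : X' → SL2 k) {R : Type u} [CommRing R] [Algebra k R]
    (L : R →ₗ[k] R) (f : X' → R) (hf : IsMorphism ι f) : IsMorphism ι (fun x => L (f x)) := by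
  obtain ⟨P, hP⟩ := hf
  simp only [hP]
  clear hP
  induction P using MvPolynomial.induction_on with
  | C a => exact ⟨MvPolynomial.C (L a), fun x => by simp⟩
  | add p q hp hq =>
    obtain ⟨P, hP⟩ := hp
    obtain ⟨Q, hQ⟩ := hq
    refine ⟨P + Q, fun x => ?_⟩
    simp only [map_add]
    rw [← hP, ← hQ]
  | mul_X p i hp =>
    obtain ⟨P, hP⟩ := hp
    refine ⟨P * MvPolynomial.X i, fun x => ?_⟩
    simp only [map_mul, MvPolynomial.eval_X]
    rw [← hP, mul_comm, ← Algebra.smul_def, map_smul, mul_comm, ← Algebra.smul_def]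

theorem mul_borel_col (g : SL2 k) (b : Borel k) (i : Fin 2) :
    (g * (b : SL2 k)) i 0 = g i 0 * (b : SL2 k) 0 0 := by
  have hb : (b : SL2 k) 1 0 = 0 := b.2
  simp [Matrix.mul_apply, Fin.sum_univ_two, hb]

/-- Multiplication by the degree one element `g₁₁ t` (after removing the constant term). -/
noncomputable def zmul (f : AA k) : AA k :=
  ⟨fun g => g 0 0 • Lm (f.1 g), by
    obtain ⟨hm, he⟩ := f.2
    constructor
    · obtain ⟨P, hP⟩ := morphism_linear _ Lm f.1 hm
      refine ⟨MvPolynomial.X (0, 0) * P, fun g => ?_⟩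
      simp only [map_mul, MvPolynomial.eval_X]
      rw [← hP, Algebra.smul_def]
    · intro g b
      beta_reduce
      rw [he, mul_borel_col, rho_inv_apply, rho_inv_apply, map_smul, scale_Lm, mul_smul]⟩

theorem X2_mem : (X ^ 2 : k[X]) ∈ cusp k := by
  rw [mem_cusp, coeff_X_pow]; simp

/-- The degree two elements `g_{i1}^2 t^2`. -/
noncomputable def sqel (i : Fin 2) : AA k :=
  ⟨fun g => (g i 0) ^ 2 • (⟨X ^ 2, X2_mem⟩ : cusp k), by
    constructor
    · refine ⟨MvPolynomial.X (i, 0) ^ 2 * MvPolynomial.C ⟨X ^ 2, X2_mem⟩, fun g => ?_⟩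
      simp only [map_mul, map_pow, MvPolynomial.eval_X, MvPolynomial.eval_C]
      rw [Algebra.smul_def, map_pow]
    · intro g b
      beta_reduce
      rw [mul_borel_col, rho_inv_apply]
      apply Subtype.ext
      ext n
      rw [scale_coeff]
      simp only [Subalgebra.coe_smul, coeff_smul, coeff_X_pow, smul_eq_mul]
      split_ifs with h
      · subst h; ring
      · simp⟩

/-- Evaluation at a group element. -/
noncomputable def evAt (g : SL2 k) : AA k →+* cusp k :=
  { toFun := fun f => f.1 g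
    map_one' := rfl
    map_mul' := fun _ _ => rfl
    map_zero' := rfl
    map_add' := fun _ _ => rfl }

theorem evAt_apply (g : SL2 k) (f : AA k) : evAt g f = f.1 g := rfl

/-- The irrelevant maximal ideal. -/
noncomputable def mI : Ideal (AA k) :=
  RingHom.ker ((c0 (k := k) : cusp k →+* k).comp (evAt 1))

theorem mem_mI (f : AA k) : f ∈ mI ↔ c0 (f.1 1) = 0 := Iff.rfl

instance mI_prime : (mI (k := k)).IsPrime := RingHom.ker_isPrime _

/-- A prime of height one. -/
noncomputable def P1 : Ideal (AA k) := RingHom.ker (evAt 1)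

instance P1_prime : (P1 (k := k)).IsPrime := RingHom.ker_isPrime _

/-- The smallest prime of the chain. -/
noncomputable def P0 : Ideal (AA k) := ⨅ s : k, RingHom.ker (evAt (low s))

theorem mem_P0 (f : AA k) : f ∈ P0 ↔ ∀ s, f.1 (low s) = 0 := by
  simp [P0, Ideal.mem_iInf, RingHom.mem_ker, evAt_apply]

theorem P0_prime [Infinite k] : (P0 (k := k)).IsPrime := by
  constructor
  · rw [Ideal.ne_top_iff_one, mem_P0]
    intro h
    exact one_ne_zero (h 0)
  · intro f h hfh
    rw [mem_P0] at hfh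
    rw [mem_P0, mem_P0]
    obtain ⟨F, hF⟩ := low_poly f.1 f.2.1
    obtain ⟨H, hH⟩ := low_poly h.1 h.2.1
    have : F * H = 0 := by
      apply Polynomial.eq_zero_of_infinite_isRoot
      refine Set.Infinite.mono (s := Set.range (algebraMap k (cusp k))) ?_
        (Set.infinite_range_of_injective (algebraMap k (cusp k)).injective)
      rintro _ ⟨s, rfl⟩
      simp only [Set.mem_ofPred_eq, IsRoot.def, eval_mul]
      rw [← hF, ← hH]
      exact hfh s
    rcases mul_eq_zero.mp this with h0 | h0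
    · left; intro s; rw [hF, h0, eval_zero]
    · right; intro s; rw [hH, h0, eval_zero]

theorem P0_lt_P1 : P0 (k := k) < P1 := by
  refine lt_of_le_of_ne ?_ ?_
  · intro f hf
    have := (mem_P0 f).mp hf 0
    rw [low_zero] at this
    exact this
  · intro h
    have h1 : sqel (k := k) 1 ∈ P1 := by
      show ((1 : SL2 k) 1 0) ^ 2 • (⟨X ^ 2, X2_mem⟩ : cusp k) = 0
      simp
    rw [← h, mem_P0] at h1
    have h2 := congrArg Subtype.val (h1 1)
    simp [sqel, low] at h2

theorem P1_lt_mI : P1 (k := k) < mI := by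
  refine lt_of_le_of_ne ?_ ?_
  · intro f hf
    have : f.1 1 = 0 := hf
    rw [mem_mI, this, map_zero]
  · intro h
    have h1 : sqel (k := k) 0 ∈ mI := by
      rw [mem_mI, c0_apply]
      simp [sqel]
    rw [← h] at h1
    have h1' : (sqel (k := k) 0).1 1 = 0 := h1
    have h2 := congrArg Subtype.val h1'
    simp [sqel] at h2

theorem two_le_height [Infinite k] : (2 : ℕ∞) ≤ (mI (k := k)).height := by
  have := P0_prime (k := k)
  have h1 := Ideal.height_add_one_le_of_lt_of_isPrime (P0_lt_P1 (k := k))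
  have h2 := Ideal.height_add_one_le_of_lt_of_isPrime (P1_lt_mI (k := k))
  calc (2 : ℕ∞) = 0 + 1 + 1 := by norm_num
    _ ≤ (P0 (k := k)).height + 1 + 1 := by gcongr; exact zero_le
    _ ≤ (P1 (k := k)).height + 1 := by gcongr
    _ ≤ _ := h2

theorem zmul_coe [Infinite k] (u : AA k) (hu : u ∈ mI) (g : SL2 k) :
    (((zmul u).1 g : cusp k) : k[X]) = C (g 0 0) * X * (u.1 g : k[X]) := by
  show ((g 0 0 • Lm (u.1 g) : cusp k) : k[X]) = _
  by_cases hg : g 0 0 = 0
  · simp [hg]
  · have h0 := c0_const u g hg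
    rw [(mem_mI u).mp hu, c0_apply] at h0
    rw [Subalgebra.coe_smul, Lm_coe, h0, smul_eq_C_mul]
    simp [mul_assoc]

theorem zmul_comm [Infinite k] (u v : AA k) (hu : u ∈ mI) (hv : v ∈ mI) :
    v * zmul u = u * zmul v := by
  apply Subtype.ext
  funext g
  apply Subtype.ext
  show (v.1 g : k[X]) * ((zmul u).1 g : cusp k) = (u.1 g : k[X]) * ((zmul v).1 g : cusp k)
  rw [zmul_coe u hu, zmul_coe v hv]
  ring

theorem no_div [Infinite k] (u s w : AA k) (hu : u ∈ mI) (hs : s ∉ mI)
    (hne : u * sqel 0 ≠ 0) (h : s * zmul u = u * w) : False := by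
  apply hne
  apply Subtype.ext
  funext g
  apply Subtype.ext
  show (u.1 g : k[X]) * (((g 0 0) ^ 2 • (⟨X ^ 2, X2_mem⟩ : cusp k) : cusp k) : k[X]) = 0
  by_cases hg : g 0 0 = 0
  · simp [hg]
  by_cases hu0 : (u.1 g : k[X]) = 0
  · simp [hu0]
  exfalso
  have h1 : (s.1 g : k[X]) * ((zmul u).1 g : cusp k) = (u.1 g : k[X]) * (w.1 g : k[X]) :=
    congrArg (fun f : AA k => ((f.1 g : cusp k) : k[X])) h
  rw [zmul_coe u hu] at h1
  have h2 : (w.1 g : k[X]) = X * (C (g 0 0) * (s.1 g : k[X])) := by
    apply mul_left_cancel₀ hu0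
    rw [← h1]; ring
  have h3 : (w.1 g : k[X]).coeff 1 = 0 := (w.1 g).2
  rw [h2, coeff_X_mul, coeff_C_mul, ← c0_apply, c0_const s g hg] at h3
  rcases mul_eq_zero.mp h3 with h4 | h4
  · exact hg h4
  · exact hs h4

theorem not_isCMLocal [Infinite k] : ¬ IsCMLocal (Localization.AtPrime (mI (k := k))) := by
  rintro ⟨rs, hmem, hreg, hlen⟩
  let A := AA k
  let S := Localization.AtPrime (mI (k := k))
  rw [IsLocalization.AtPrime.ringKrullDim_eq_height (mI (k := k)) S] at hlen
  have h2 : (2 : ℕ∞) ≤ (rs.length : ℕ∞) := by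
    have h3 : ((rs.length : ℕ∞) : WithBot ℕ∞) = ((mI (k := k)).height : WithBot ℕ∞) := hlen
    rw [WithBot.coe_inj] at h3
    rw [h3]; exact two_le_height
  have h2' : 2 ≤ rs.length := by exact_mod_cast h2
  clear h2 hlen
  match rs, hmem, hreg, h2' with
  | u' :: v' :: rest, hmem, hreg, _ =>
    have hw := hreg.toIsWeaklyRegular
    rw [RingTheory.Sequence.isWeaklyRegular_cons_iff,
      RingTheory.Sequence.isWeaklyRegular_cons_iff] at hw
    obtain ⟨hu', hv', -⟩ := hw
    obtain ⟨⟨u, s1⟩, hus⟩ := IsLocalization.surj (mI (k := k)).primeCompl u'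
    obtain ⟨⟨v, s2⟩, hvs⟩ := IsLocalization.surj (mI (k := k)).primeCompl v'
    simp only at hus hvs
    have hum : u ∈ mI := by
      rw [← IsLocalization.AtPrime.to_map_mem_maximal_iff S (mI (k := k)) u, ← hus]
      exact Ideal.mul_mem_right _ _ (hmem u' (by simp))
    have hvm : v ∈ mI := by
      rw [← IsLocalization.AtPrime.to_map_mem_maximal_iff S (mI (k := k)) v, ← hvs]
      exact Ideal.mul_mem_right _ _ (hmem v' (by simp))
    have hs1 : IsUnit (algebraMap A S s1) := IsLocalization.map_units S s1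
    have hs2 : IsUnit (algebraMap A S s2) := IsLocalization.map_units S s2
    have hcomm := congrArg (algebraMap A S) (zmul_comm u v hum hvm)
    rw [map_mul, map_mul, ← hus, ← hvs] at hcomm
    have hq : (Submodule.Quotient.mk (algebraMap A S s2 * algebraMap A S (zmul u)) :
        QuotSMulTop u' S) = 0 := by
      apply hv'
      simp only [smul_zero]
      rw [← Submodule.Quotient.mk_smul, Submodule.Quotient.mk_eq_zero, smul_eq_mul, ← mul_assoc,
        hcomm, mul_assoc]
      exact Submodule.smul_mem_pointwise_smul _ _ _ Submodule.mem_top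
    rw [Submodule.Quotient.mk_eq_zero] at hq
    obtain ⟨w', -, hw'⟩ := (Submodule.mem_smul_pointwise_iff_exists _ _ _).mp hq
    obtain ⟨⟨w, s3⟩, hws⟩ := IsLocalization.surj (mI (k := k)).primeCompl w'
    simp only at hws
    have heq : algebraMap A S (s1 * s3 * s2 * zmul u) = algebraMap A S (u * w) := by
      rw [map_mul, map_mul, map_mul, map_mul, ← hus, ← hws, mul_assoc, mul_assoc, ← hw',
        smul_eq_mul]
      ring
    obtain ⟨s4, hs4⟩ := (IsLocalization.eq_iff_exists (mI (k := k)).primeCompl S).mp heq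
    refine no_div u (s4 * s1 * s3 * s2) (s4 * w) hum
      ((s4 * s1 * s3 * s2 : (mI (k := k)).primeCompl).2) ?_ ?_
    · intro h0
      have h1 : u' • (algebraMap A S s1 * algebraMap A S (sqel 0)) = u' • (0 : S) := by
        rw [smul_eq_mul, ← mul_assoc, hus, ← map_mul, h0, map_zero, smul_zero]
      have h3 := hu' h1
      rw [← map_mul, IsLocalization.map_eq_zero_iff (mI (k := k)).primeCompl] at h3
      obtain ⟨s5, hs5⟩ := h3
      have h4 : (s5 * s1 : (mI (k := k)).primeCompl).1 ∈ P1 := by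
        have h5 : (s5 * s1 : (mI (k := k)).primeCompl).1 * sqel 0 ∈ P1 := by
          have : (s5 * s1 : (mI (k := k)).primeCompl).1 * sqel 0 = 0 := by
            rw [← hs5, Submonoid.coe_mul, mul_assoc]
          rw [this]; exact Ideal.zero_mem _
        rcases P1_prime.mem_or_mem h5 with h6 | h6
        · exact h6
        · exfalso
          have h1' : (sqel (k := k) 0).1 1 = 0 := h6
          have h2 := congrArg Subtype.val h1'
          simp [sqel] at h2
      exact (s5 * s1 : (mI (k := k)).primeCompl).2 (P1_lt_mI.le h4)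
    · linear_combination hs4

theorem main [Infinite k] :
    ∃ (R : Type u) (_ : CommRing R) (_ : Algebra k R) (ρ : Borel k →* (R ≃ₐ[k] R)),
      IsRationalAction ρ ∧ IsDomain R ∧ Algebra.FiniteType k R ∧ IsCohenMacaulay R ∧
        ¬ IsCohenMacaulay (ind ρ) :=
  ⟨cusp k, inferInstance, inferInstance, rho, rho_rational, inferInstance, cusp_finiteType,
    cusp_isCM, fun h => not_isCMLocal (k := k) ((show IsCohenMacaulay (AA k) from h).2 mI)⟩

end Pool.Agent.H36Z.IndCM
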